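import Pool.Agent.MP_914aa3_co.Cl.All

open Pool.Agent.MP_914aa3_co

/-- The exact set of triples for which `S(k, m·, n)` decomposes. -/
theorem Pool.Agent.Results.MP_914aa3_co.Classification.result (k m n : ℕ) (hk : 1 ≤ k)
    (hm : 1 ≤ m) (hn : 1 ≤ n) :
    Decomposes k m n ↔ ¬ ((∃ j, Odd j ∧ k = 2 * j ∧ m = 2 * j ∧ Even n) ∨
      (k = 1 ∧ Even m ∧ Even n) ∨ (k = 3 ∧ m = 4 ∧ Even n ∧ 6 ≤ n)) :=
  Cl.classify Cl.closed k m n hk hm hn
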